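import Pool.Agent.V11260.Tree3

/-!
# The numbers of components of `Σ₁` and of the spectrum differ

The binary tree with one forward neighbour of each of the labels `true`, `false` at every vertex, its
adjacency operator plus the potential `√2` at the vertices of label `true` and `-√2` at those of
label `false`: `Σ₁ = (-c, 0) ∪ (0, c)` has two components and the spectrum `[-c, c]`, `c = 3√6/2`,
has one.
-/

namespace Pool.Agent.Results.MP_750254_mp.ComponentsDiffer

section defs

variable {A : Type}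

/-- The label of the vertex reached by the steps of a list (last step first) from a root of label
`j`. A step `(k, i)` leads to the forward neighbour number `i` among those of label `k`. -/
def lab (j : A) : List (A × ℕ) → A
  | [] => j
  | s :: _ => s.1

/-- All the steps of the list exist: the vertex reached before the step `(k, i)` has more than `i`
forward neighbours of label `k`. -/
def IsPath (M : Matrix A A ℕ) (j : A) : List (A × ℕ) → Prop
  | [] => True
  | s :: p => IsPath M j p ∧ s.2 < M (lab j p) s.1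

/-- The vertices of the rooted tree `𝕋(M, j)`: the paths that start at the root. The root has label
`j`, and every vertex of label `k` has exactly `M k l` forward neighbours of label `l`. -/
def Vertex (M : Matrix A A ℕ) (j : A) : Type := {p : List (A × ℕ) // IsPath M j p}

variable {M : Matrix A A ℕ} {j : A}

/-- The label of a vertex. -/
def label (x : Vertex M j) : A := lab j x.1

/-- `y` is a forward neighbour of `x`. -/
def Forward (x y : Vertex M j) : Prop := ∃ s : A × ℕ, y.1 = s :: x.1

/-- `x` and `y` are neighbours in the tree. -/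
def Adj (x y : Vertex M j) : Prop := Forward x y ∨ Forward y x

/-- A label invariant operator on `𝕋(M, j)`: the weight `ν`, the coefficients `t x y`, and the real
numbers `m k l` and `w k` (`m_{k,l}` and `m_k` in the notation of the problem), with `w (label x)`
the potential at `x`. -/
structure LabelInvariant (M : Matrix A A ℕ) (j : A) where
  ν : A → ℝ
  t : Vertex M j → Vertex M j → ℂ
  m : A → A → ℝ
  w : A → ℝ
  ν_pos : ∀ k, 0 < ν k
  t_ne_zero : ∀ x y, t x y ≠ 0 ↔ Adj x y
  t_symm : ∀ x y, t x y * ν (label x) = star (t y x) * ν (label y)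
  t_abs : ∀ x y, Adj x y → ‖t x y‖ ^ 2 * M (label x) (label y) = m (label x) (label y)

namespace LabelInvariant

/-- `(T φ)(x) = ∑_{y ∼ x} t(x, y) φ(y) + w(x) φ(x)`. -/
noncomputable def app (T : LabelInvariant M j) (φ : Vertex M j → ℂ) (x : Vertex M j) : ℂ :=
  (∑ᶠ y, T.t x y * φ y) + T.w (label x) * φ x

/-- `φ ∈ ℓ²(V, ν)`. -/
def InL2 (T : LabelInvariant M j) (φ : Vertex M j → ℂ) : Prop :=
  Summable fun x => T.ν (label x) * ‖φ x‖ ^ 2

/-- The spectrum of `T` on `ℓ²(V, ν)` (as `T` is self-adjoint it is real): the numbers `E` for which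
`T - E` is not a bijection of `ℓ²(V, ν)`. -/
def spectrum (T : LabelInvariant M j) : Set ℝ :=
  {E | ¬ ∀ ψ, T.InL2 ψ → ∃! φ, T.InL2 φ ∧ ∀ x, T.app φ x - E * φ x = ψ x}

/-- The set `Σ₁`: the system `ξ_k (E - m_k + ∑_l m_{k,l} ξ_l) + 1 = 0` has a solution in the upper
half plane. -/
def sigmaOne [Fintype A] (T : LabelInvariant M j) : Set ℝ :=
  {E | ∃ ξ : A → ℂ, (∀ k, 0 < (ξ k).im) ∧ ∀ k, ξ k * (E - T.w k + ∑ l, T.m k l * ξ l) + 1 = 0}

end LabelInvariant

end defs

open Pool.Agent.V11260.Tree

noncomputable section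

/-- all entries are one -/
def M1 : Matrix Bool Bool ℕ := fun _ _ => 1

def rt (j : Bool) : Vertex M1 j := ⟨[], trivial⟩

def ch {j : Bool} (k : Bool) (x : Vertex M1 j) : Vertex M1 j := ⟨(k, 0) :: x.1, x.2, Nat.one_pos⟩

lemma ch_inj {j k l : Bool} {x y : Vertex M1 j} (h : ch k x = ch l y) : k = l ∧ x = y := by
  have h1 := congrArg Subtype.val h
  change (k, 0) :: x.1 = (l, 0) :: y.1 at h1
  rw [List.cons.injEq, Prod.mk.injEq] at h1
  exact ⟨h1.1.1, Subtype.ext h1.2⟩

lemma ch_ne (j k : Bool) (x : Vertex M1 j) : ch k x ≠ rt j := fun h => by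
  have h1 := congrArg Subtype.val h
  change (k, 0) :: x.1 = [] at h1
  exact absurd h1 (by simp)

lemma exh1 {j : Bool} (x : Vertex M1 j) : x = rt j ∨ ∃ k y, x = ch k y := by
  obtain ⟨p, hp⟩ := x
  cases p with
  | nil => exact Or.inl rfl
  | cons s q =>
    right
    obtain ⟨k, i⟩ := s
    obtain ⟨h1, h2⟩ := hp
    have hi : i = 0 := Nat.lt_one_iff.1 h2
    subst hi
    exact ⟨k, ⟨q, h1⟩, rfl⟩

def B1 (j : Bool) : BT (Vertex M1 j) where
  o := rt j
  c := ch
  inj := fun k x y h => (ch_inj h).2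
  disj := fun x y h => absurd (ch_inj h).1 (by decide)
  ne_o := ch_ne j
  exh := exh1

lemma forward_iff {j : Bool} (x y : Vertex M1 j) : Forward x y ↔ ∃ k, y = ch k x := by
  constructor
  · rintro ⟨s, hs⟩
    rcases exh1 y with rfl | ⟨k, z, rfl⟩
    · exact absurd hs (by simp [rt])
    · change (k, 0) :: z.1 = s :: x.1 at hs
      rw [List.cons.injEq] at hs
      exact ⟨k, by rw [Subtype.ext hs.2]⟩
  · rintro ⟨k, rfl⟩
    exact ⟨(k, 0), rfl⟩

lemma ch_ch_ne {j : Bool} (k l : Bool) (x : Vertex M1 j) : ch k (ch l x) ≠ x := fun h => by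
  have h1 := congrArg (fun y : Vertex M1 j => y.1.length) h
  change (((k, 0) :: (l, 0) :: x.1).length) = x.1.length at h1
  simp only [List.length_cons] at h1
  omega

open Classical in
def T1 (j : Bool) : LabelInvariant M1 j where
  ν := fun _ => 1
  t := fun x y => if Adj x y then 1 else 0
  m := fun _ _ => 1
  w := mm
  ν_pos := fun _ => one_pos
  t_ne_zero := fun x y => by
    by_cases h : Adj x y <;> simp [h]
  t_symm := fun x y => by
    have : Adj x y ↔ Adj y x := Or.comm
    by_cases h : Adj x y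
    · have h2 := this.1 h
      simp [h, h2]
    · have h2 : ¬ Adj y x := fun h' => h (this.2 h')
      simp [h, h2]
  t_abs := fun x y h => by
    simp [h, M1]

lemma sum_two {V : Type} (f : V → ℂ) (a b : V) (hab : a ≠ b)
    (h : ∀ y, f y ≠ 0 → y = a ∨ y = b) : ∑ᶠ y, f y = f a + f b := by
  classical
  rw [finsum_eq_sum_of_support_subset (s := {a, b}) f (by
    intro y hy
    rcases h y hy with rfl | rfl <;> simp), Finset.sum_pair hab]

lemma sum_three {V : Type} (f : V → ℂ) (a b c : V) (hab : a ≠ b) (hac : a ≠ c) (hbc : b ≠ c)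
    (h : ∀ y, f y ≠ 0 → y = a ∨ y = b ∨ y = c) : ∑ᶠ y, f y = f a + f b + f c := by
  classical
  rw [finsum_eq_sum_of_support_subset (s := {a, b, c}) f (by
    intro y hy
    rcases h y hy with rfl | rfl | rfl <;> simp), Finset.sum_insert (by simp [hab, hac]),
    Finset.sum_pair hbc, add_assoc]

lemma t1_one {j : Bool} {x y : Vertex M1 j} (h : Adj x y) : (T1 j).t x y = 1 := if_pos h

lemma t1_zero {j : Bool} {x y : Vertex M1 j} (h : ¬ Adj x y) : (T1 j).t x y = 0 := if_neg h

lemma adj_ch {j : Bool} (k : Bool) (x : Vertex M1 j) : Adj x (ch k x) :=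
  Or.inl ((forward_iff _ _).2 ⟨k, rfl⟩)

lemma adj_ch' {j : Bool} (k : Bool) (x : Vertex M1 j) : Adj (ch k x) x :=
  Or.inr ((forward_iff _ _).2 ⟨k, rfl⟩)

lemma app_rt (j : Bool) (φ : Vertex M1 j → ℂ) : (T1 j).app φ (rt j) =
    mm j * φ (rt j) + (φ (ch true (rt j)) + φ (ch false (rt j))) := by
  unfold LabelInvariant.app
  rw [sum_two _ (ch true (rt j)) (ch false (rt j)) (fun h => absurd (ch_inj h).1 (by decide))]
  · rw [t1_one (adj_ch _ _), t1_one (adj_ch _ _), one_mul, one_mul]
    change _ + ((mm j : ℝ) : ℂ) * φ (rt j) = _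
    ring
  · intro y hy
    have h1 : Adj (rt j) y := by
      by_contra h
      rw [t1_zero h, zero_mul] at hy
      exact hy rfl
    rcases h1 with h1 | h1
    · obtain ⟨k, rfl⟩ := (forward_iff _ _).1 h1
      cases k
      · exact Or.inr rfl
      · exact Or.inl rfl
    · obtain ⟨k, hk⟩ := (forward_iff _ _).1 h1
      exact absurd hk.symm (ch_ne j k y)

lemma app_ch (j : Bool) (φ : Vertex M1 j → ℂ) (k : Bool) (x : Vertex M1 j) :
    (T1 j).app φ (ch k x) = mm k * φ (ch k x) +
      (φ (ch true (ch k x)) + φ (ch false (ch k x))) + φ x := by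
  unfold LabelInvariant.app
  rw [sum_three _ (ch true (ch k x)) (ch false (ch k x)) x
    (fun h => absurd (ch_inj h).1 (by decide)) (ch_ch_ne _ _ _) (ch_ch_ne _ _ _)]
  · rw [t1_one (adj_ch _ _), t1_one (adj_ch _ _), t1_one (adj_ch' _ _), one_mul, one_mul, one_mul]
    change _ + ((mm k : ℝ) : ℂ) * φ (ch k x) = _
    ring
  · intro y hy
    have h1 : Adj (ch k x) y := by
      by_contra h
      rw [t1_zero h, zero_mul] at hy
      exact hy rfl
    rcases h1 with h1 | h1
    · obtain ⟨l, rfl⟩ := (forward_iff _ _).1 h1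
      cases l
      · exact Or.inr (Or.inl rfl)
      · exact Or.inl rfl
    · obtain ⟨l, hl⟩ := (forward_iff _ _).1 h1
      exact Or.inr (Or.inr (ch_inj hl).2.symm)

instance (j : Bool) : DecidableEq (Vertex M1 j) := Classical.decEq _

/-- the bounded operator -/
def TT (j : Bool) : HH (Vertex M1 j) →L[ℂ] HH (Vertex M1 j) := (B1 j).T (mm j) mm

lemma TT_eq (j : Bool) (f : HH (Vertex M1 j)) (x : Vertex M1 j) : TT j f x = (T1 j).app f x := by
  rcases exh1 x with rfl | ⟨k, y, rfl⟩
  · rw [app_rt]; exact (B1 j).T_o _ _ _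
  · rw [app_ch]; exact (B1 j).T_c _ _ _ _ _

lemma inL2_iff (j : Bool) (φ : Vertex M1 j → ℂ) : (T1 j).InL2 φ ↔ Memℓp φ 2 := by
  unfold LabelInvariant.InL2
  change (Summable fun x => (1 : ℝ) * ‖φ x‖ ^ 2) ↔ _
  simp only [one_mul]
  constructor
  · exact memTwo
  · exact fun h => summ ⟨φ, h⟩

/-- the operator `T - E` -/
def AE (j : Bool) (E : ℝ) : HH (Vertex M1 j) →L[ℂ] HH (Vertex M1 j) :=
  TT j - (E : ℂ) • ContinuousLinearMap.id ℂ (HH (Vertex M1 j))

lemma AE_apply (j : Bool) (E : ℝ) (f : HH (Vertex M1 j)) : AE j E f = TT j f - (E : ℂ) • f := rfl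

lemma AE_iff (j : Bool) (E : ℝ) (f g : HH (Vertex M1 j)) :
    AE j E f = g ↔ ∀ x, (T1 j).app f x - E * f x = g x := by
  constructor
  · rintro rfl x
    rw [← TT_eq]; rfl
  · intro h
    apply lp.ext
    funext x
    rw [← h x, ← TT_eq]
    rfl

lemma bij_iff (j : Bool) (E : ℝ) : (∀ ψ, (T1 j).InL2 ψ → ∃! φ, (T1 j).InL2 φ ∧
    ∀ x, (T1 j).app φ x - E * φ x = ψ x) ↔ Function.Bijective (AE j E) := by
  constructor
  · intro h
    constructor
    · intro f g hfg
      obtain ⟨φ, -, h2⟩ := h (AE j E g) ((inL2_iff j _).2 (AE j E g).2)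
      have h3 := h2 f ⟨(inL2_iff j _).2 f.2, (AE_iff j E f _).1 hfg⟩
      have h4 := h2 g ⟨(inL2_iff j _).2 g.2, (AE_iff j E g _).1 rfl⟩
      exact Subtype.ext (h3.trans h4.symm)
    · intro g
      obtain ⟨φ, ⟨h1, h2⟩, -⟩ := h g ((inL2_iff j _).2 g.2)
      exact ⟨⟨φ, (inL2_iff j _).1 h1⟩, (AE_iff j E _ _).2 h2⟩
  · intro h ψ hψ
    obtain ⟨f, hf⟩ := h.2 ⟨ψ, (inL2_iff j _).1 hψ⟩
    refine ⟨f, ⟨(inL2_iff j _).2 f.2, (AE_iff j E f _).1 hf⟩, ?_⟩
    rintro φ ⟨h1, h2⟩
    have h3 : AE j E ⟨φ, (inL2_iff j _).1 h1⟩ = ⟨ψ, (inL2_iff j _).1 hψ⟩ :=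
      (AE_iff j E _ _).2 h2
    have h4 := h.1 (h3.trans hf.symm)
    exact congrArg Subtype.val h4

lemma bij_iff_unit (j : Bool) (E : ℝ) : Function.Bijective (AE j E) ↔ IsUnit (AE j E) := by
  rw [ContinuousLinearMap.isUnit_iff_bijective]

lemma sigma_eq (j : Bool) : (T1 j).sigmaOne = {E : ℝ | E ≠ 0 ∧ E ^ 2 < 27 / 2} := by
  ext E
  change (∃ ξ : Bool → ℂ, (∀ k, 0 < (ξ k).im) ∧
    ∀ k, ξ k * (E - mm k + ∑ l, ((1 : ℝ) : ℂ) * ξ l) + 1 = 0) ↔ _
  rw [Set.mem_ofPred_eq, ← sig_iff]
  simp only [Fintype.sum_bool, Complex.ofReal_one, one_mul]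

lemma not_unit {j : Bool} {E : ℝ} (h0 : E ≠ 0) (h1 : E ^ 2 < 27 / 2) : ¬ IsUnit (AE j E) := by
  rw [← bij_iff_unit]
  intro h
  obtain ⟨ξ, hpos, hξ⟩ := (sig_iff E).2 ⟨h0, h1⟩
  obtain ⟨g, hg⟩ := h.2 (dl (rt j))
  exact (B1 j).not_range (mm j) mm ξ rfl hξ hpos g hg

lemma spec_eq (j : Bool) : (T1 j).spectrum = Set.Icc (-cc) cc := by
  ext E
  unfold LabelInvariant.spectrum
  rw [Set.mem_ofPred_eq, bij_iff, bij_iff_unit, Set.mem_Icc, ← abs_le]
  constructor
  · intro h
    by_contra hcon
    push Not at hcon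
    exact h (isUnit_out (B1 j) j hcon)
  · intro h hu
    have hcont : Continuous fun E : ℝ => AE j E := by
      unfold AE
      fun_prop
    have hopen : IsOpen {E : ℝ | IsUnit (AE j E)} := Units.isOpen.preimage hcont
    obtain ⟨ε, hε, hball⟩ := Metric.isOpen_iff.1 hopen E hu
    have hc := cc_pos
    have key : ∀ E' : ℝ, |E' - E| < ε → E' ≠ 0 → |E'| < cc → False := by
      intro E' h1 h2 h3
      have h4 : E' ∈ Metric.ball E ε := by rwa [Metric.mem_ball, Real.dist_eq]
      refine not_unit (j := j) h2 ?_ (hball h4)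
      rw [← cc_sq, ← sq_abs E']
      gcongr
    rcases eq_or_ne E 0 with rfl | hne
    · obtain ⟨δ, hδ⟩ : ∃ δ, δ = min (ε / 2) (cc / 2) := ⟨_, rfl⟩
      have hδ0 : 0 < δ := by rw [hδ]; exact lt_min (by linarith) (by linarith)
      have h1 : δ ≤ ε / 2 := by rw [hδ]; exact min_le_left _ _
      have h2 : δ ≤ cc / 2 := by rw [hδ]; exact min_le_right _ _
      exact key δ (by rw [sub_zero, abs_of_pos hδ0]; linarith) hδ0.ne'
        (by rw [abs_of_pos hδ0]; linarith)
    · have hE : 0 < |E| := abs_pos.2 hne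
      obtain ⟨δ, hδ⟩ : ∃ δ, δ = min (1 / 2) (ε / (2 * cc)) := ⟨_, rfl⟩
      have hδ0 : 0 < δ := by rw [hδ]; exact lt_min (by norm_num) (by positivity)
      have h1 : δ ≤ 1 / 2 := by rw [hδ]; exact min_le_left _ _
      have h2 : δ ≤ ε / (2 * cc) := by rw [hδ]; exact min_le_right _ _
      refine key ((1 - δ) * E) ?_ (mul_ne_zero (by linarith) hne) ?_
      · have e : (1 - δ) * E - E = -(δ * E) := by ring
        rw [e, abs_neg, abs_mul, abs_of_pos hδ0]
        calc δ * |E| ≤ ε / (2 * cc) * cc := by gcongr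
          _ = ε / 2 := by field_simp
          _ < ε := by linarith
      · rw [abs_mul, abs_of_pos (by linarith : (0 : ℝ) < 1 - δ)]
        calc (1 - δ) * |E| < 1 * |E| := by
              apply mul_lt_mul_of_pos_right _ hE
              linarith
          _ ≤ cc := by rw [one_mul]; exact h

lemma card_one {S : Set ℝ} (h : IsPreconnected S) (hne : S.Nonempty) :
    Nat.card (ConnectedComponents S) = 1 := by
  have : PreconnectedSpace S := isPreconnected_iff_preconnectedSpace.1 h
  have : Nonempty S := hne.to_subtype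
  rw [Nat.card_eq_one_iff_unique]
  refine ⟨⟨fun a b => ?_⟩, inferInstance⟩
  obtain ⟨x, rfl⟩ := ConnectedComponents.surjective_coe a
  obtain ⟨y, rfl⟩ := ConnectedComponents.surjective_coe b
  rw [ConnectedComponents.coe_eq_coe, PreconnectedSpace.connectedComponent_eq_univ,
    PreconnectedSpace.connectedComponent_eq_univ]

lemma pre_sub {S I : Set ℝ} (hI : IsPreconnected I) (hIS : I ⊆ S) (x y : S) (hx : x.1 ∈ I)
    (hy : y.1 ∈ I) : (x : ConnectedComponents S) = y := by
  have h1 : IsPreconnected (Subtype.val ⁻¹' I : Set S) := by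
    rw [← Topology.IsInducing.subtypeVal.isPreconnected_image, Subtype.image_preimage_coe,
      Set.inter_eq_self_of_subset_right hIS]
    exact hI
  rw [ConnectedComponents.coe_eq_coe']
  exact h1.subset_connectedComponent (x := y) hy hx

lemma card_two {c : ℝ} (hc : 0 < c) {S : Set ℝ} (hS : S = Set.Ioo (-c) 0 ∪ Set.Ioo 0 c) :
    Nat.card (ConnectedComponents S) = 2 := by
  have hmem : ∀ x : S, x.1 ∈ Set.Ioo (-c) 0 ∪ Set.Ioo 0 c := fun x => hS ▸ x.2
  have hne : ∀ x : S, x.1 ≠ 0 := fun x h => by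
    rcases hmem x with h2 | h2
    · exact h2.2.ne h
    · exact h2.1.ne' h
  have hcont : Continuous fun x : S => decide (0 < x.1) := by
    rw [continuous_discrete_rng]
    intro b
    cases b
    · have : (fun x : S => decide (0 < x.1)) ⁻¹' {false} = {x : S | x.1 < 0} := by
        ext x
        simp only [Set.mem_preimage, Set.mem_singleton_iff, decide_eq_false_iff_not, not_lt,
          Set.mem_ofPred_eq]
        exact ⟨fun h => lt_of_le_of_ne h (hne x), fun h => h.le⟩
      rw [this]
      exact isOpen_lt continuous_subtype_val continuous_const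
    · have : (fun x : S => decide (0 < x.1)) ⁻¹' {true} = {x : S | 0 < x.1} := by
        ext x
        simp
      rw [this]
      exact isOpen_lt continuous_const continuous_subtype_val
  have hbij : Function.Bijective hcont.connectedComponentsLift := by
    constructor
    · intro a b hab
      obtain ⟨x, rfl⟩ := ConnectedComponents.surjective_coe a
      obtain ⟨y, rfl⟩ := ConnectedComponents.surjective_coe b
      rw [Continuous.connectedComponentsLift_apply_coe,
        Continuous.connectedComponentsLift_apply_coe] at hab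
      have hx := hmem x
      have hy := hmem y
      rcases hx with hx | hx
      · rcases hy with hy | hy
        · exact pre_sub isPreconnected_Ioo (by rw [hS]; exact Set.subset_union_left) x y hx hy
        · exfalso
          have e1 : decide (0 < x.1) = false := decide_eq_false (not_lt.2 hx.2.le)
          have e2 : decide (0 < y.1) = true := decide_eq_true hy.1
          rw [e1, e2] at hab
          exact absurd hab (by decide)
      · rcases hy with hy | hy
        · exfalso
          have e1 : decide (0 < x.1) = true := decide_eq_true hx.1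
          have e2 : decide (0 < y.1) = false := decide_eq_false (not_lt.2 hy.2.le)
          rw [e1, e2] at hab
          exact absurd hab (by decide)
        · exact pre_sub isPreconnected_Ioo (by rw [hS]; exact Set.subset_union_right) x y hx hy
    · intro b
      cases b
      · refine ⟨((⟨-c / 2, by rw [hS]; left; constructor <;> linarith⟩ : S) :
          ConnectedComponents S), ?_⟩
        rw [Continuous.connectedComponentsLift_apply_coe]
        exact decide_eq_false (by push Not; linarith)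
      · refine ⟨((⟨c / 2, by rw [hS]; right; constructor <;> linarith⟩ : S) :
          ConnectedComponents S), ?_⟩
        rw [Continuous.connectedComponentsLift_apply_coe]
        exact decide_eq_true (by linarith)
  rw [Nat.card_eq_of_bijective _ hbij, Nat.card_eq_fintype_card, Fintype.card_bool]

lemma sigma_eq2 (j : Bool) : (T1 j).sigmaOne = Set.Ioo (-cc) 0 ∪ Set.Ioo 0 cc := by
  rw [sigma_eq]
  have hc := cc_pos
  ext E
  rw [Set.mem_ofPred_eq, Set.mem_union, Set.mem_Ioo, Set.mem_Ioo, ← cc_sq]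
  constructor
  · rintro ⟨h0, h1⟩
    have h2 := abs_lt_of_sq_lt_sq h1 hc.le
    rw [abs_lt] at h2
    rcases lt_or_gt_of_ne h0 with h | h
    · exact Or.inl ⟨h2.1, h⟩
    · exact Or.inr ⟨h, h2.2⟩
  · rintro (⟨h1, h2⟩ | ⟨h1, h2⟩)
    · exact ⟨h2.ne, by nlinarith⟩
    · exact ⟨h1.ne', by nlinarith⟩

/-- There are a finite set of labels and a substitution matrix `M` with the three properties
required (`∑_k M j k ≥ 2`, `M j j ≥ 1`, primitive), such that for every root label `j` there is a
label invariant operator on the tree `𝕋(M, j)` for which `Σ₁` has two connected components and the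
spectrum has one. -/
theorem result : ∃ (A : Type) (_ : Fintype A) (_ : DecidableEq A) (M : Matrix A A ℕ),
    (∀ j, 2 ≤ ∑ k, M j k) ∧ (∀ j, 1 ≤ M j j) ∧ (∃ n : ℕ, ∀ j k, 0 < (M ^ n) j k) ∧
    Nonempty A ∧ ∀ j : A, ∃ T : LabelInvariant M j,
      Nat.card (ConnectedComponents T.sigmaOne) = 2 ∧
      Nat.card (ConnectedComponents T.spectrum) = 1 := by
  refine ⟨Bool, inferInstance, inferInstance, M1, fun j => ?_, fun j => le_rfl, ⟨1, fun j k => ?_⟩,
    ⟨true⟩, fun j => ⟨T1 j, ?_, ?_⟩⟩
  · rw [Fintype.sum_bool]; exact le_rfl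
  · rw [pow_one]; exact Nat.one_pos
  · exact card_two cc_pos (sigma_eq2 j)
  · rw [spec_eq]
    exact card_one isPreconnected_Icc ⟨0, by
      have := cc_pos
      constructor <;> linarith⟩

end

end Pool.Agent.Results.MP_750254_mp.ComponentsDiffer
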